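import Mathlib
import Pool.Agent.H536.OC.Wd

open Finset Filter Topology

/-! Subtask (helper536). -/

namespace Pool.Agent.H536.OC

open Pool.Agent.Y882 Pool.Agent.W23.DC Pool.Agent.H536.OB
open Pool.Agent.H318R2.Cr (V Pz mem_Pz V_pos cz_bounds one_sub_inv_pos)
open Pool.Agent.H262R3.Lk (wM)

theorem PW_sum_inv_sq (S : Finset ℕ) (x : ℝ) (hx : 0 < x) (h : ∀ p ∈ S, x ≤ (p : ℝ)) :
    ∑ p ∈ S, 1 / (p : ℝ) ^ 2 ≤ 2 / x := by
  have hk : 1 ≤ ⌈x⌉₊ := Nat.one_le_ceil_iff.2 hx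
  have h1 : S ⊆ Ioo (⌈x⌉₊ - 1) (S.sup id + 1) := by
    intro p hp
    rw [mem_Ioo]
    have h2 : ⌈x⌉₊ ≤ p := Nat.ceil_le.2 (h p hp)
    have h3 : p ≤ S.sup id := Finset.le_sup (f := id) hp
    omega
  calc ∑ p ∈ S, 1 / (p : ℝ) ^ 2 ≤ ∑ p ∈ Ioo (⌈x⌉₊ - 1) (S.sup id + 1), 1 / (p : ℝ) ^ 2 :=
        sum_le_sum_of_subset_of_nonneg h1 fun p _ _ => by positivity
    _ = ∑ p ∈ Ioo (⌈x⌉₊ - 1) (S.sup id + 1), ((p : ℝ) ^ 2)⁻¹ := by
        apply sum_congr rfl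
        intro p _
        rw [one_div]
    _ ≤ 2 / (((⌈x⌉₊ - 1 : ℕ) : ℝ) + 1) := sum_Ioo_inv_sq_le _ _
    _ = 2 / (⌈x⌉₊ : ℝ) := by
        congr 1
        have : ((⌈x⌉₊ - 1 : ℕ) : ℝ) = (⌈x⌉₊ : ℝ) - 1 := by
          rw [Nat.cast_sub hk]
          simp
        rw [this]
        ring
    _ ≤ 2 / x := div_le_div_of_nonneg_left (by norm_num) hx (Nat.le_ceil x)

open Classical in
theorem PW_zero_card {p Q B : ℕ} (hp : p.Prime) (hco : B.Coprime Q) :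
    ((range p).filter (fun c => p ∣ Q * c + B)).card ≤ 1 := by
  rw [Finset.card_le_one]
  intro a ha b hb
  rw [mem_filter, mem_range] at ha hb
  have hpq : ¬ p ∣ Q := by
    intro h
    have h1 : p ∣ B := (Nat.dvd_add_right (Dvd.dvd.mul_right h a)).1 ha.2
    have h2 := Nat.dvd_gcd h1 h
    rw [hco] at h2
    exact hp.one_lt.ne' (Nat.dvd_one.1 h2)
  have h2 : Q * a + B ≡ Q * b + B [MOD p] :=
    ((Nat.modEq_zero_iff_dvd).2 ha.2).trans ((Nat.modEq_zero_iff_dvd).2 hb.2).symm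
  have h3 : a ≡ b [MOD p] := Nat.ModEq.cancel_left_of_coprime ((Nat.Prime.coprime_iff_not_dvd hp).2 hpq)
    (Nat.ModEq.add_right_cancel' _ h2)
  exact Nat.ModEq.eq_of_lt_of_lt h3 ha.1 hb.1

theorem PW_zero_ex {p Q B : ℕ} (hp : p.Prime) (hpq : ¬ p ∣ Q) :
    ∃ c ∈ range p, p ∣ Q * c + B := by
  have : Fact p.Prime := ⟨hp⟩
  have hQ : (Q : ZMod p) ≠ 0 := by
    rw [Ne, ZMod.natCast_eq_zero_iff]
    exact hpq
  refine ⟨(-(B : ZMod p) / (Q : ZMod p)).val, mem_range.2 (ZMod.val_lt _), ?_⟩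
  rw [← ZMod.natCast_eq_zero_iff]
  push_cast
  rw [ZMod.natCast_zmod_val]
  field_simp
  ring

open Classical in
/-- the enlarged sets of classes -/
noncomputable def PW_H (X : ℝ) (Q B : ℕ) (H : ℕ → Finset ℕ) (p : ℕ) : Finset ℕ :=
  if (p : ℝ) ≤ X then H p ∪ (range p).filter (fun c => p ∣ Q * c + B) else H p

theorem PW_H_sub {X : ℝ} {Q B : ℕ} {H : ℕ → Finset ℕ} {p : ℕ} : H p ⊆ PW_H X Q B H p := by
  classical
  unfold PW_H
  split_ifs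
  · exact subset_union_left
  · exact Finset.Subset.refl _

theorem PW_H_range {X : ℝ} {Q B : ℕ} {H : ℕ → Finset ℕ} {p : ℕ} (h : H p ⊆ range p) :
    PW_H X Q B H p ⊆ range p := by
  classical
  unfold PW_H
  split_ifs
  · exact union_subset h (filter_subset _ _)
  · exact h

theorem PW_H_card {X : ℝ} {Q B κ : ℕ} {H : ℕ → Finset ℕ} {p : ℕ} (hp : p.Prime) (hco : B.Coprime Q)
    (h : (H p).card ≤ κ) : (PW_H X Q B H p).card ≤ κ + 1 := by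
  classical
  unfold PW_H
  split_ifs
  · refine (card_union_le _ _).trans ?_
    have := PW_zero_card hp hco
    omega
  · omega

theorem PW_H_zero {X : ℝ} {Q B : ℕ} {H : ℕ → Finset ℕ} {p : ℕ} (hp : p.Prime) (hX : (p : ℝ) ≤ X)
    (hpq : ¬ p ∣ Q) : ∃ c ∈ PW_H X Q B H p, p ∣ Q * c + B := by
  classical
  obtain ⟨c, hc, hd⟩ := PW_zero_ex (B := B) hp hpq
  refine ⟨c, ?_, hd⟩
  unfold PW_H
  rw [if_pos hX]
  exact mem_union_right _ (mem_filter.2 ⟨hc, hd⟩)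

theorem PW_H_eq {X : ℝ} {Q B : ℕ} {H : ℕ → Finset ℕ} {p : ℕ} (hX : X < (p : ℝ)) :
    PW_H X Q B H p = H p := by
  unfold PW_H
  rw [if_neg (not_le.2 hX)]

theorem PW_gg_bound {q : ℕ} {χ : DirichletCharacter ℂ q} (h : χ ^ 2 = 1) {B κ : ℕ} {H : ℕ → Finset ℕ} {p : ℕ}
    (hp : p.Prime) (hk : (H p).card ≤ κ) : 0 ≤ gg χ B H p ∧ gg χ B H p ≤ ((2 * κ : ℕ) : ℝ) / (p : ℝ) := by
  have h2 : (2 : ℝ) ≤ p := by exact_mod_cast hp.two_le
  unfold gg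
  constructor
  · apply mul_nonneg (by positivity)
    exact sum_nonneg fun c _ => (hh_nonneg h _ hp).1
  · have h3 : ∑ c ∈ H p, hh χ (q * c + B) p ≤ 2 * κ := by
      calc ∑ c ∈ H p, hh χ (q * c + B) p ≤ ∑ c ∈ H p, 2 := sum_le_sum fun c _ => (hh_nonneg h _ hp).2
        _ = (H p).card * 2 := by rw [sum_const, nsmul_eq_mul]
        _ ≤ κ * 2 := by
            have : ((H p).card : ℝ) ≤ κ := by exact_mod_cast hk
            linarith
        _ = 2 * κ := by ring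
    push_cast
    calc 1 / (p : ℝ) * ∑ c ∈ H p, hh χ (q * c + B) p ≤ 1 / (p : ℝ) * (2 * κ) :=
          mul_le_mul_of_nonneg_left h3 (by positivity)
      _ = 2 * κ / p := by ring

theorem PW_gg_diff {q : ℕ} {χ : DirichletCharacter ℂ q} (h : χ ^ 2 = 1) {B κ : ℕ} {H : ℕ → Finset ℕ} {p : ℕ}
    (hp : p.Prime) (hk : (H p).card ≤ κ) (hn : ∀ c ∈ H p, ¬ p ∣ q * c + B) :
    |gg χ B H p - ((H p).card : ℝ) / ((p : ℝ) - 1)| ≤ 3 * κ * (1 / (p : ℝ) ^ 2) := by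
  have h2 : (2 : ℝ) ≤ p := by exact_mod_cast hp.two_le
  have h3 : gg χ B H p = (H p).card * ((1 / (p : ℝ)) * (1 - cr χ p / (p : ℝ))) := by
    unfold gg
    have : ∀ c ∈ H p, hh χ (q * c + B) p = 1 - cr χ p / (p : ℝ) := by
      intro c hc
      unfold hh
      rw [if_neg (hn c hc), add_zero]
    rw [sum_congr rfl this, sum_const, nsmul_eq_mul]
    ring
  have h4 : gg χ B H p - ((H p).card : ℝ) / ((p : ℝ) - 1) =
      (H p).card * ((1 / (p : ℝ)) * (1 - cr χ p / (p : ℝ)) - 1 / ((p : ℝ) - 1)) := by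
    rw [h3]; ring
  rw [h4, abs_mul, Nat.abs_cast]
  have h5 : |(1 / (p : ℝ)) * (1 - cr χ p / (p : ℝ)) - 1 / ((p : ℝ) - 1)| ≤ 3 * (1 / (p : ℝ) ^ 2) := by
    have h6 : (1 / (p : ℝ)) * (1 - cr χ p / (p : ℝ)) - 1 / ((p : ℝ) - 1) =
        -(1 / ((p : ℝ) * ((p : ℝ) - 1))) - cr χ p * (1 / (p : ℝ) ^ 2) := by
      have : (p : ℝ) - 1 ≠ 0 := by linarith
      field_simp
      ring
    rw [h6]
    have h7 : 1 / ((p : ℝ) * ((p : ℝ) - 1)) ≤ 2 * (1 / (p : ℝ) ^ 2) := by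
      rw [mul_one_div, div_le_div_iff₀ (by nlinarith) (by positivity)]
      nlinarith
    have h8 : 0 ≤ 1 / ((p : ℝ) * ((p : ℝ) - 1)) := by
      apply div_nonneg zero_le_one
      nlinarith
    have h9 := abs_le.1 (cr_abs h p)
    have h10 : (0 : ℝ) < 1 / (p : ℝ) ^ 2 := by positivity
    rw [abs_le]
    constructor <;> nlinarith
  have h6 : ((H p).card : ℝ) ≤ κ := by exact_mod_cast hk
  calc ((H p).card : ℝ) * |(1 / (p : ℝ)) * (1 - cr χ p / (p : ℝ)) - 1 / ((p : ℝ) - 1)| ≤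
        κ * (3 * (1 / (p : ℝ) ^ 2)) := mul_le_mul h6 h5 (abs_nonneg _) (by positivity)
    _ = _ := by ring

theorem PW_ev1 (N0 : ℕ) : ∀ᶠ T : ℝ in atTop, N0 ≤ ⌊Real.exp T⌋₊ :=
  (tendsto_nat_floor_atTop.comp Real.tendsto_exp_atTop).eventually_ge_atTop N0

theorem PW_floor {T : ℝ} (hT : 2 ≤ T) : Real.exp T / 2 ≤ ((⌊Real.exp T⌋₊ : ℕ) : ℝ) ∧
    ((⌊Real.exp T⌋₊ : ℕ) : ℝ) ≤ Real.exp T := by
  have h1 : T + 1 ≤ Real.exp T := Real.add_one_le_exp T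
  have h2 := Nat.lt_floor_add_one (Real.exp T)
  exact ⟨by linarith, Nat.floor_le (Real.exp_pos T).le⟩

theorem PW_ev4 (C ε : ℝ) (hε : 0 < ε) : ∀ᶠ T : ℝ in atTop, C ≤ ((⌊Real.exp T⌋₊ : ℕ) : ℝ) ^ ε := by
  have h1 : Tendsto (fun T : ℝ => ((⌊Real.exp T⌋₊ : ℕ) : ℝ)) atTop atTop :=
    tendsto_natCast_atTop_atTop.comp (tendsto_nat_floor_atTop.comp Real.tendsto_exp_atTop)
  exact ((tendsto_rpow_atTop hε).comp h1).eventually_ge_atTop C

theorem PW_ev3 (ε : ℝ) (hε : 0 < ε) (hε1 : ε ≤ 1) :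
    ∀ᶠ T : ℝ in atTop, T < ((⌊Real.exp T⌋₊ : ℕ) : ℝ) ^ ε := by
  filter_upwards [eventually_ge_atTop (2 : ℝ), eventually_ge_atTop (8 / ε ^ 2)] with T hT hT2
  have h1 := (PW_floor hT).1
  have h2 : (Real.exp T / 2) ^ ε ≤ ((⌊Real.exp T⌋₊ : ℕ) : ℝ) ^ ε :=
    Real.rpow_le_rpow (by positivity) h1 hε.le
  refine lt_of_lt_of_le ?_ h2
  have h3 : (Real.exp T / 2) ^ ε = Real.exp (ε * T) / 2 ^ ε := by
    rw [Real.div_rpow (Real.exp_pos T).le (by norm_num), ← Real.exp_mul, mul_comm]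
  rw [h3, lt_div_iff₀ (by positivity)]
  have h4 : (2 : ℝ) ^ ε ≤ 2 := by
    calc (2 : ℝ) ^ ε ≤ 2 ^ (1 : ℝ) := Real.rpow_le_rpow_of_exponent_le (by norm_num) hε1
      _ = 2 := by norm_num
  have h5 : ε * T + 1 + (ε * T) ^ 2 / 2 ≤ Real.exp (ε * T) := by
    have := Real.quadratic_le_exp_of_nonneg (show 0 ≤ ε * T by positivity)
    linarith
  have h6 : 8 ≤ ε ^ 2 * T := by
    rw [div_le_iff₀ (by positivity)] at hT2
    linarith
  have h7 : 4 * T ≤ (ε * T) ^ 2 / 2 := by nlinarith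
  have h8 : 0 ≤ ε * T := by positivity
  nlinarith

open Classical in
theorem PW_Mer {q : ℕ} {χ : DirichletCharacter ℂ q} (h : χ ^ 2 = 1) {B κ : ℕ} {H : ℕ → Finset ℕ} {Y : ℕ}
    {X ε₁ η : ℝ} (P : Finset ℕ) (hY : 1 ≤ Y)
    (hpr : ∀ p ∈ pr Y ε₁ (17 / 50), p.Prime ∧ X < (p : ℝ) ∧ p ∈ P ∧ (H p).card ≤ κ ∧
      (∀ c ∈ H p, ¬ p ∣ q * c + B) ∧ (Y : ℝ) ^ ε₁ ≤ (p : ℝ))
    (hsmall : 3 * (κ : ℝ) * (2 / (Y : ℝ) ^ ε₁) ≤ η / 2)
    (hMer : Mer (pr Y ε₁ (17 / 50)) (tt Y) (fun p => ((H p).card : ℝ) / ((p : ℝ) - 1)) ε₁ (17 / 50) (η / 2)) :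
    Mer (pr Y ε₁ (17 / 50)) (tt Y) (fun p => if p ∈ P then gg χ B (PW_H X q B H) p else 0) ε₁ (17 / 50) η := by
  intro a b ha hab hb
  have h1 := hMer a b ha hab hb
  set F := (pr Y ε₁ (17 / 50)).filter (fun p => a ≤ tt Y p ∧ tt Y p < b) with hF
  have h2 : |∑ p ∈ F, (if p ∈ P then gg χ B (PW_H X q B H) p else 0) - ∑ p ∈ F, ((H p).card : ℝ) / ((p : ℝ) - 1)| ≤ η / 2 := by
    rw [← sum_sub_distrib]
    refine (abs_sum_le_sum_abs _ _).trans ?_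
    have h3 : ∀ p ∈ F, |(if p ∈ P then gg χ B (PW_H X q B H) p else 0) - ((H p).card : ℝ) / ((p : ℝ) - 1)| ≤
        3 * κ * (1 / (p : ℝ) ^ 2) := by
      intro p hp
      obtain ⟨a1, a2, a3, a4, a5, a6⟩ := hpr p (mem_filter.1 hp).1
      rw [if_pos a3]
      have h4 : gg χ B (PW_H X q B H) p = gg χ B H p := by
        unfold gg
        rw [PW_H_eq a2]
      rw [h4]
      exact PW_gg_diff h a1 a4 a5
    refine (sum_le_sum h3).trans ?_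
    rw [← mul_sum]
    have hY0 : (0 : ℝ) < (Y : ℝ) ^ ε₁ := by
      have : (0 : ℝ) < Y := by exact_mod_cast hY
      positivity
    refine le_trans (mul_le_mul_of_nonneg_left (PW_sum_inv_sq F ((Y : ℝ) ^ ε₁) hY0 ?_) (by positivity)) hsmall
    intro p hp
    exact (hpr p (mem_filter.1 hp).1).2.2.2.2.2
  calc |∑ p ∈ F, (if p ∈ P then gg χ B (PW_H X q B H) p else 0) - Real.log (b / a)| ≤
        |∑ p ∈ F, (if p ∈ P then gg χ B (PW_H X q B H) p else 0) - ∑ p ∈ F, ((H p).card : ℝ) / ((p : ℝ) - 1)| +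
        |∑ p ∈ F, ((H p).card : ℝ) / ((p : ℝ) - 1) - Real.log (b / a)| := abs_sub_le _ _ _
    _ ≤ η / 2 + η / 2 := add_le_add h2 h1
    _ = η := by ring

open Classical in
/-- the product -/
theorem PW_prod {q : ℕ} {χ : DirichletCharacter ℂ q} (h : χ ^ 2 = 1) {B κ w : ℕ} {H : ℕ → Finset ℕ} {Y : ℕ}
    {ε₂ c5 : ℝ} (hY : 2 ≤ Y) (hε₂ : 0 < ε₂) (hε₂8 : ε₂ < 1 / 8) (hco : B.Coprime q)
    (hH : ∀ p : ℕ, p.Prime → w < p → H p ⊆ range p ∧ (H p).card ≤ κ)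
    (hratio : ∀ (A : Finset ℕ) (g : ℕ → ℝ), (∀ p ∈ A, p.Prime ∧ (Y : ℝ) ^ ε₂ < p ∧ p ≤ Y) →
      (∀ p ∈ A, 0 ≤ g p ∧ g p ≤ ((2 * (κ + 1) : ℕ) : ℝ) / (p : ℝ)) → c5 ≤ ∏ p ∈ A, (1 - g p))
    (hVV : 0 ≤ VV χ ((Icc 1 Y).filter (fun p => p.Prime ∧ w < p ∧ (p : ℝ) ≤ (Y : ℝ) ^ ε₂))
      (PW_H ((Y : ℝ) ^ ε₂) q B H)) :
    c5 * VV χ ((Icc 1 Y).filter (fun p => p.Prime ∧ w < p ∧ (p : ℝ) ≤ (Y : ℝ) ^ ε₂))
      (PW_H ((Y : ℝ) ^ ε₂) q B H) ≤
    ∏ p ∈ ((PZ Y (17 / 50)).filter (fun p => w < p)).filter (fun p => tt Y p < 1 / 8),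
      (1 - gg χ B (PW_H ((Y : ℝ) ^ ε₂) q B H) p) := by
  set X := (Y : ℝ) ^ ε₂ with hX
  set P' := (Icc 1 Y).filter (fun p => p.Prime ∧ w < p ∧ (p : ℝ) ≤ X) with hP'
  set A := (Icc 1 Y).filter (fun p => p.Prime ∧ w < p ∧ X < (p : ℝ) ∧ tt Y p < 1 / 8) with hA
  have hYr : (2 : ℝ) ≤ Y := by exact_mod_cast hY
  have hXlt : X < (Y : ℝ) ^ (1 / 8 : ℝ) := Real.rpow_lt_rpow_of_exponent_lt (by linarith) hε₂8
  have hset : ((PZ Y (17 / 50)).filter (fun p => w < p)).filter (fun p => tt Y p < 1 / 8) = P' ∪ A := by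
    ext p
    unfold PZ
    simp only [mem_filter, mem_union, hP', hA, mem_Icc]
    constructor
    · rintro ⟨⟨⟨a1, a2, a3⟩, a4⟩, a5⟩
      by_cases hp : (p : ℝ) ≤ X
      · exact Or.inl ⟨a1, a2, a4, hp⟩
      · exact Or.inr ⟨a1, a2, a4, not_le.1 hp, a5⟩
    · rintro (⟨a1, a2, a3, a4⟩ | ⟨a1, a2, a3, a4, a5⟩)
      · have h5 : tt Y p < 1 / 8 := (tt_lt Y p (1 / 8) hY a2.pos).2 (lt_of_le_of_lt a4 hXlt)
        exact ⟨⟨⟨a1, a2, by linarith⟩, a3⟩, h5⟩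
      · exact ⟨⟨⟨a1, a2, by linarith⟩, a3⟩, a5⟩
  have hdis : Disjoint P' A := by
    rw [Finset.disjoint_left]
    intro p hp hp2
    rw [hP', mem_filter] at hp
    rw [hA, mem_filter] at hp2
    linarith [hp.2.2.2, hp2.2.2.2.1]
  rw [hset, prod_union hdis]
  have h1 : ∏ p ∈ P', (1 - gg χ B (PW_H X q B H) p) = VV χ P' (PW_H X q B H) := by
    unfold Pool.Agent.H536.OB.VV
    apply prod_congr rfl
    intro p hp
    rw [hP', mem_filter] at hp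
    exact gg_sub hp.2.1 (PW_H_range (hH p hp.2.1 hp.2.2.1).1) (fun hpq => PW_H_zero hp.2.1 hp.2.2.2 hpq) hco
  have h2 : c5 ≤ ∏ p ∈ A, (1 - gg χ B (PW_H X q B H) p) := by
    apply hratio
    · intro p hp
      rw [hA, mem_filter, mem_Icc] at hp
      exact ⟨hp.2.1, hp.2.2.2.1, hp.1.2⟩
    · intro p hp
      rw [hA, mem_filter, mem_Icc] at hp
      exact PW_gg_bound h hp.2.1 (PW_H_card hp.2.1 hco (hH p hp.2.1 hp.2.2.1).2)
  rw [h1, mul_comm]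
  exact mul_le_mul_of_nonneg_left h2 hVV

open Classical in
/-- the upper bound when there is no good value -/
theorem PW_sum {T X E : ℝ} {Q B w R Y : ℕ} {χ : DirichletCharacter ℂ Q} (hχ2 : χ ^ 2 = 1) {H : ℕ → Finset ℕ}
    {Sq : ℕ → ℕ → Prop} (hYdef : Y = ⌊Real.exp T⌋₊) (hY2 : 2 ≤ Y) (hQ1 : 1 ≤ Q)
    (hQY : (Q : ℝ) * Y ≤ 3 * Real.exp (101 / 100 * T)) (hBQ : B ≤ Q) (hw : (w : ℝ) < (Y : ℝ) ^ (1 / 8 : ℝ))
    (hXlt : X < (Y : ℝ) ^ (1 / 8 : ℝ))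
    (hSq : ∀ p n : ℕ, p ∈ pr Y (1 / 8) (17 / 50) → (((range n).filter (fun t => Sq p t)).card : ℝ) ≤ (n : ℝ) / (p : ℝ) ^ 2 + 3)
    (hrr : ∀ t < Y, (∀ p ∈ (Icc 1 Y).filter (fun p => p.Prime ∧ w < p ∧ (p : ℝ) ≤ X), t % p ∉ PW_H X Q B H p) →
      rr χ (Q * t + B) ≤ 2 ^ R)
    (hcomp : ∑ t ∈ (range Y).filter (fun t => (∀ p ∈ (Icc 1 Y).filter (fun p => p.Prime ∧ w < p ∧ (p : ℝ) ≤ X),
      t % p ∉ PW_H X Q B H p) ∧ ¬ (Q * t + B).Prime), rr χ (Q * t + B) ≤ E)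
    (hG : ¬ Good T Q B w H Sq) :
    ∑ t ∈ (range Y).filter (fun t => ∀ p ∈ (PZ Y (17 / 50)).filter (fun p => w < p), tt Y p < 1 / 8 →
        t % p ∉ PW_H X Q B H p), rr χ (Q * t + B) *
        (1 - (1 / 2) * ((((PZ Y (17 / 50)).filter (fun p => w < p)).filter
          (fun p => 1 / 8 ≤ tt Y p ∧ t % p ∈ PW_H X Q B H p)).card : ℝ)) ≤
      E + 2 ^ R * (Real.exp (T / 2) + 1) + 2 ^ R * ∑ p ∈ pr Y (1 / 8) (17 / 50), ((Y : ℝ) / (p : ℝ) ^ 2 + 3) := by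
  set P' := (Icc 1 Y).filter (fun p => p.Prime ∧ w < p ∧ (p : ℝ) ≤ X) with hP'
  set P := (PZ Y (17 / 50)).filter (fun p => w < p) with hP
  set F := (range Y).filter (fun t => ∀ p ∈ P, tt Y p < 1 / 8 → t % p ∉ PW_H X Q B H p) with hF
  set D := pr Y (1 / 8) (17 / 50) with hD
  -- sifted by `P'`
  have hsift : ∀ t ∈ F, ∀ p ∈ P', t % p ∉ PW_H X Q B H p := by
    intro t ht p hp
    rw [hF, mem_filter] at ht
    rw [hP', mem_filter, mem_Icc] at hp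
    have h5 : tt Y p < 1 / 8 := (tt_lt Y p (1 / 8) hY2 hp.2.1.pos).2 (lt_of_le_of_lt hp.2.2.2 hXlt)
    refine ht.2 p ?_ h5
    rw [hP, mem_filter]
    unfold PZ
    rw [mem_filter, mem_Icc]
    exact ⟨⟨hp.1, hp.2.1, by linarith⟩, hp.2.2.1⟩
  -- the pointwise bound
  have hpt : ∀ t ∈ F, rr χ (Q * t + B) * (1 - (1 / 2) * ((P.filter
      (fun p => 1 / 8 ≤ tt Y p ∧ t % p ∈ PW_H X Q B H p)).card : ℝ)) ≤
      (if ¬ (Q * t + B).Prime then rr χ (Q * t + B) else 0) +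
      (if ((Q * t + B : ℕ) : ℝ) ≤ Real.exp (T / 2) then 2 ^ R else 0) +
      ∑ p ∈ D, (if Sq p t then (2 : ℝ) ^ R else 0) := by
    intro t ht
    have ht' := ht
    rw [hF, mem_filter, mem_range] at ht'
    have hr0 := rr_nonneg hχ2 (Q * t + B)
    have hr1 := hrr t ht'.1 (hsift t ht)
    have hle : rr χ (Q * t + B) * (1 - (1 / 2) * ((P.filter
      (fun p => 1 / 8 ≤ tt Y p ∧ t % p ∈ PW_H X Q B H p)).card : ℝ)) ≤ rr χ (Q * t + B) := by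
      have : (0 : ℝ) ≤ ((P.filter (fun p => 1 / 8 ≤ tt Y p ∧ t % p ∈ PW_H X Q B H p)).card : ℝ) := Nat.cast_nonneg _
      nlinarith
    have hs0 : (0 : ℝ) ≤ ∑ p ∈ D, (if Sq p t then (2 : ℝ) ^ R else 0) :=
      sum_nonneg fun p _ => by split_ifs <;> positivity
    have hR0 : (0 : ℝ) ≤ 2 ^ R := by positivity
    by_cases hprime : (Q * t + B).Prime
    · rw [if_neg (not_not.2 hprime), zero_add]
      by_cases hsize : ((Q * t + B : ℕ) : ℝ) ≤ Real.exp (T / 2)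
      · rw [if_pos hsize]
        linarith
      · rw [if_neg hsize, zero_add]
        by_cases hsq : ∃ p ∈ D, Sq p t
        · obtain ⟨p, hp, hp2⟩ := hsq
          have : (2 : ℝ) ^ R ≤ ∑ p ∈ D, (if Sq p t then (2 : ℝ) ^ R else 0) := by
            calc (2 : ℝ) ^ R = (if Sq p t then (2 : ℝ) ^ R else 0) := by rw [if_pos hp2]
              _ ≤ _ := single_le_sum (f := fun p => (if Sq p t then (2 : ℝ) ^ R else 0))
                (fun p _ => by positivity) hp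
          linarith
        · push Not at hsq
          refine le_trans ?_ hs0
          -- at least two primes
          have hcard : 2 ≤ (D.filter (fun p => t % p ∈ H p)).card := by
            by_contra hlt
            apply hG
            refine ⟨t, hprime, not_le.1 hsize, ?_, ?_, ?_, ?_⟩
            · refine le_trans ?_ hQY
              have h1 : Q * t + B ≤ Q * Y := by
                have : t + 1 ≤ Y := ht'.1
                nlinarith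
              exact_mod_cast h1
            · intro p hp hwp htp hmem
              rw [← hYdef] at htp
              have hpY : (p : ℝ) < (Y : ℝ) ^ (1 / 8 : ℝ) := (tt_lt Y p (1 / 8) hY2 hp.pos).1 htp
              have hYr : (2 : ℝ) ≤ Y := by exact_mod_cast hY2
              have hpY2 : p ≤ Y := by
                have : (Y : ℝ) ^ (1 / 8 : ℝ) ≤ (Y : ℝ) ^ (1 : ℝ) :=
                  Real.rpow_le_rpow_of_exponent_le (by linarith) (by norm_num)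
                rw [Real.rpow_one] at this
                have h2 : (p : ℝ) ≤ Y := by linarith
                exact_mod_cast h2
              refine ht'.2 p ?_ htp (PW_H_sub hmem)
              rw [hP, mem_filter]
              unfold PZ
              rw [mem_filter, mem_Icc]
              exact ⟨⟨⟨hp.pos, hpY2⟩, hp, by linarith⟩, hwp⟩
            · rw [← hYdef, ← hD]
              have hlt2 := Nat.lt_of_not_le hlt
              exact Nat.lt_succ_iff.1 hlt2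
            · rw [← hYdef]
              exact hsq
          have hcard2 : 2 ≤ (P.filter (fun p => 1 / 8 ≤ tt Y p ∧ t % p ∈ PW_H X Q B H p)).card := by
            refine hcard.trans (card_le_card ?_)
            intro p hp
            rw [mem_filter] at hp
            have hpD := hp.1
            rw [hD] at hpD
            unfold pr at hpD
            rw [mem_filter, mem_Icc] at hpD
            rw [mem_filter, hP, mem_filter]
            unfold PZ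
            rw [mem_filter, mem_Icc]
            refine ⟨⟨⟨hpD.1, hpD.2.1, hpD.2.2.2⟩, ?_⟩, hpD.2.2.1, PW_H_sub hp.2⟩
            have h6 : ¬ (p : ℝ) < (Y : ℝ) ^ (1 / 8 : ℝ) := fun hlt => by
              have := (tt_lt Y p (1 / 8) hY2 hpD.2.1.pos).2 hlt
              linarith [hpD.2.2.1]
            have h7 : (w : ℝ) < p := by linarith
            exact_mod_cast h7
          have hcard3 : (2 : ℝ) ≤ ((P.filter (fun p => 1 / 8 ≤ tt Y p ∧ t % p ∈ PW_H X Q B H p)).card : ℝ) := by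
            exact_mod_cast hcard2
          apply mul_nonpos_of_nonneg_of_nonpos hr0
          linarith
    · rw [if_pos hprime]
      have : (0 : ℝ) ≤ (if ((Q * t + B : ℕ) : ℝ) ≤ Real.exp (T / 2) then 2 ^ R else 0) := by
        split_ifs <;> positivity
      linarith
  refine (sum_le_sum hpt).trans ?_
  rw [sum_add_distrib, sum_add_distrib]
  refine add_le_add (add_le_add ?_ ?_) ?_
  · refine le_trans ?_ hcomp
    rw [← sum_filter]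
    apply sum_le_sum_of_subset_of_nonneg
    · intro t ht
      rw [mem_filter] at ht
      have h1 := ht.1
      rw [hF, mem_filter] at h1
      rw [mem_filter]
      exact ⟨h1.1, hsift t ht.1, ht.2⟩
    · intro t _ _
      exact rr_nonneg hχ2 _
  · rw [← sum_filter, sum_const, nsmul_eq_mul, mul_comm]
    apply mul_le_mul_of_nonneg_left _ (by positivity)
    have h1 : F.filter (fun t => ((Q * t + B : ℕ) : ℝ) ≤ Real.exp (T / 2)) ⊆ range (⌊Real.exp (T / 2)⌋₊ + 1) := by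
      intro t ht
      rw [mem_filter] at ht
      rw [mem_range, Nat.lt_succ_iff]
      apply Nat.le_floor
      refine le_trans ?_ ht.2
      have : t ≤ Q * t + B := by nlinarith
      exact_mod_cast this
    have h2 := card_le_card h1
    rw [card_range] at h2
    calc ((F.filter (fun t => ((Q * t + B : ℕ) : ℝ) ≤ Real.exp (T / 2))).card : ℝ) ≤ ((⌊Real.exp (T / 2)⌋₊ + 1 : ℕ) : ℝ) := by
          exact_mod_cast h2
      _ ≤ Real.exp (T / 2) + 1 := by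
          push_cast
          have := Nat.floor_le (Real.exp_pos (T / 2)).le
          linarith
  · rw [sum_comm, mul_sum]
    apply sum_le_sum
    intro p hp
    rw [← sum_filter, sum_const, nsmul_eq_mul, mul_comm]
    apply mul_le_mul_of_nonneg_left _ (by positivity)
    refine le_trans ?_ (hSq p Y hp)
    have h1 : F.filter (fun t => Sq p t) ⊆ (range Y).filter (fun t => Sq p t) :=
      filter_subset_filter _ (filter_subset _ _)
    exact_mod_cast card_le_card h1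

theorem PW_small {κ η Z : ℝ} (hη : 0 < η) (hZ : 0 < Z) (h : 12 * κ / η ≤ Z) : 3 * κ * (2 / Z) ≤ η / 2 := by
  rw [mul_div_assoc', div_le_iff₀ hZ]
  rw [div_le_iff₀ hη] at h
  linarith

theorem PW_four : (4 : ℝ) ^ (1 / 2 : ℝ) = 2 := by
  rw [show (4 : ℝ) = 2 ^ (2 : ℝ) by norm_num, ← Real.rpow_mul (by norm_num)]
  norm_num

theorem PW_final {y U c E1 C R1 a e₂ : ℝ} (hy : 1 ≤ y) (hc : 0 < c) (hR1 : 0 < R1)
    (he₂ : 0 < e₂) (he₂' : e₂ ≤ 1 / 200) (hU : y ^ (-(e₂ / 10)) ≤ U)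
    (ha : 4 / c ≤ y ^ (e₂ / 2)) (hb : 64 * R1 / c ≤ y ^ (1 / 16 : ℝ)) (hx : a ≤ 2 * y ^ (1 / 2 : ℝ))
    (hC : C ≤ c / 4) (hE1 : E1 ≤ 2 * y ^ (7 / 8 : ℝ) + 3 * y ^ (17 / 50 : ℝ))
    (h : c * (y * U) ≤ (C + y ^ (-(e₂ / 2))) * (y * U) + R1 * (a + 1) + R1 * E1) : False := by
  have hy0 : 0 < y := by linarith
  have hU0 : 0 < U := lt_of_lt_of_le (Real.rpow_pos_of_pos hy0 _) hU
  have h1 : y ^ (-(e₂ / 2)) ≤ c / 4 := by
    rw [Real.rpow_neg hy0.le, inv_le_comm₀ (Real.rpow_pos_of_pos hy0 _) (by positivity), inv_div]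
    exact ha
  have h2 : y ^ (1 / 2 : ℝ) ≤ y ^ (7 / 8 : ℝ) := Real.rpow_le_rpow_of_exponent_le hy (by norm_num)
  have h3 : y ^ (17 / 50 : ℝ) ≤ y ^ (7 / 8 : ℝ) := Real.rpow_le_rpow_of_exponent_le hy (by norm_num)
  have h4 : (1 : ℝ) ≤ y ^ (7 / 8 : ℝ) := Real.one_le_rpow hy (by norm_num)
  have h5 : R1 * (a + 1) + R1 * E1 ≤ 8 * R1 * y ^ (7 / 8 : ℝ) := by nlinarith
  have h6 : 64 * R1 * y ^ (7 / 8 : ℝ) ≤ c * (y * U) := by
    have h7 : 64 * R1 ≤ c * y ^ (1 / 16 : ℝ) := by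
      rw [div_le_iff₀ hc] at hb
      linarith
    have h8 : y ^ (1 / 16 : ℝ) * y ^ (7 / 8 : ℝ) ≤ y * U := by
      calc y ^ (1 / 16 : ℝ) * y ^ (7 / 8 : ℝ) = y ^ (15 / 16 : ℝ) := by
            rw [← Real.rpow_add hy0]; norm_num
        _ ≤ y ^ (1 + -(e₂ / 10)) := Real.rpow_le_rpow_of_exponent_le hy (by linarith)
        _ = y * y ^ (-(e₂ / 10)) := by rw [Real.rpow_add hy0, Real.rpow_one]
        _ ≤ y * U := by gcongr
    calc 64 * R1 * y ^ (7 / 8 : ℝ) ≤ c * y ^ (1 / 16 : ℝ) * y ^ (7 / 8 : ℝ) := by gcongr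
      _ = c * (y ^ (1 / 16 : ℝ) * y ^ (7 / 8 : ℝ)) := by ring
      _ ≤ c * (y * U) := by gcongr
  have h7 : 0 < y * U := by positivity
  have h8 : 0 < c * (y * U) := by positivity
  have h9 : (C + y ^ (-(e₂ / 2))) * (y * U) ≤ (c / 2) * (y * U) := by
    apply mul_le_mul_of_nonneg_right _ h7.le
    linarith
  nlinarith

set_option maxHeartbeats 4000000 in
open Classical in
theorem PW (h1 : S_plusAK) (h2 : S_comps) (h3 : S_ratio) : S_PW := by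
  intro κ
  obtain ⟨ε₁, η, c₀, hε₁, hε₁8, hη, hc₀, Y0, hY0⟩ := h1 (κ + 1)
  obtain ⟨e0, K, he0, he0', hK, hcomps⟩ := h2 (κ + 1)
  set ε₂ : ℝ := min e0 (ε₁ / 2) with hε₂def
  have hε₂ : 0 < ε₂ := lt_min he0 (by positivity)
  have hε₂e0 : ε₂ ≤ e0 := min_le_left _ _
  have hε₂ε₁ : ε₂ ≤ ε₁ / 2 := min_le_right _ _
  have hε₂200 : ε₂ ≤ 1 / 200 := hε₂e0.trans he0'
  obtain ⟨c5, hc5, Y1, hratio⟩ := h3 (2 * (κ + 1)) ε₂ hε₂
  refine ⟨ε₁, η / 2, c₀ * c5 / (4 * K), hε₁, hε₁8, by positivity, by positivity, ε₂ / 100000,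
    by positivity, ?_⟩
  intro δ hδ hδ0
  obtain ⟨T0, hT0⟩ := hcomps ε₂ hε₂ hε₂e0 δ hδ (by linarith)
  set R : ℕ := ⌊2 / ε₂⌋₊ with hR
  have hev : ∀ᶠ T : ℝ in atTop, (Y0 ≤ ⌊Real.exp T⌋₊ ∧ Y1 ≤ ⌊Real.exp T⌋₊ ∧ 2 ≤ ⌊Real.exp T⌋₊) ∧
      (2 ≤ T ∧ T0 ≤ T ∧ ((4 * (κ + 1) + 4 : ℕ) : ℝ) ^ 2 ≤ T) ∧
      (T < ((⌊Real.exp T⌋₊ : ℕ) : ℝ) ^ ε₁ ∧ T < ((⌊Real.exp T⌋₊ : ℕ) : ℝ) ^ (1 / 8 : ℝ)) ∧
      (12 * κ / η ≤ ((⌊Real.exp T⌋₊ : ℕ) : ℝ) ^ ε₁ ∧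
        4 / (c₀ * c5) ≤ ((⌊Real.exp T⌋₊ : ℕ) : ℝ) ^ (ε₂ / 2) ∧
        64 * (2 ^ R) / (c₀ * c5) ≤ ((⌊Real.exp T⌋₊ : ℕ) : ℝ) ^ (1 / 16 : ℝ)) := by
    refine ((PW_ev1 Y0).and ((PW_ev1 Y1).and (PW_ev1 2))).and (((eventually_ge_atTop 2).and
      ((eventually_ge_atTop T0).and (eventually_ge_atTop _))).and
      (((PW_ev3 ε₁ hε₁ (by linarith)).and (PW_ev3 (1 / 8) (by norm_num) (by norm_num))).and
      ((PW_ev4 _ ε₁ hε₁).and ((PW_ev4 _ _ (by positivity)).and (PW_ev4 _ _ (by norm_num))))))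
  obtain ⟨T1, hT1⟩ := eventually_atTop.1 hev
  refine ⟨T1, fun T hT Q B w _ H Sq hS hMer χ hχ hχ2 hχB hell => ?_⟩
  obtain ⟨⟨hY0', hY1', hY2⟩, ⟨hT2, hTT0, hTκ⟩, ⟨hTε₁, hT8⟩, ⟨hη', hc4, hR64⟩⟩ := hT1 T hT
  have hfl := PW_floor hT2
  set Y : ℕ := ⌊Real.exp T⌋₊ with hY
  set M : ℕ := ⌊Real.exp (δ * T)⌋₊ with hM
  have hYr : (2 : ℝ) ≤ Y := by exact_mod_cast hY2
  have hYpos : (0 : ℝ) < Y := by linarith
  have hQ1 : 1 ≤ Q := le_trans hS.hB1 hS.hBQ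
  have hMr : (M : ℝ) ≤ Real.exp (δ * T) := Nat.floor_le (Real.exp_pos _).le
  have hQM : (Q : ℝ) ≤ Real.exp (2 * (δ * T)) := by
    have h4 : (Q : ℝ) ≤ (M : ℝ) ^ 2 := by exact_mod_cast hS.hQ
    calc (Q : ℝ) ≤ (M : ℝ) ^ 2 := h4
      _ ≤ (Real.exp (δ * T)) ^ 2 := by gcongr
      _ = Real.exp (2 * (δ * T)) := by rw [← Real.exp_nat_mul]; norm_num
  have hδ1 : δ ≤ 1 / 10000000 := by linarith
  have hQY1 : (Q : ℝ) ≤ (Y : ℝ) ^ (1 / 10000 : ℝ) := by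
    refine hQM.trans ?_
    have h5 : Real.exp (T / 2) ≤ Y := by
      refine le_trans ?_ hfl.1
      have h6 : Real.exp T = Real.exp (T / 2) * Real.exp (T / 2) := by
        rw [← Real.exp_add]; congr 1; ring
      have h7 : 2 ≤ Real.exp (T / 2) := by
        have := Real.add_one_le_exp (T / 2)
        linarith
      rw [h6]
      nlinarith [Real.exp_pos (T / 2)]
    calc Real.exp (2 * (δ * T)) ≤ Real.exp ((T / 2) * (1 / 10000)) := by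
          apply Real.exp_le_exp.2
          nlinarith
      _ = (Real.exp (T / 2)) ^ (1 / 10000 : ℝ) := by rw [← Real.exp_mul]
      _ ≤ (Y : ℝ) ^ (1 / 10000 : ℝ) := Real.rpow_le_rpow (Real.exp_pos _).le h5 (by norm_num)
  have hQY : (Q : ℝ) * Y ≤ 3 * Real.exp (101 / 100 * T) := by
    calc (Q : ℝ) * Y ≤ Real.exp (2 * (δ * T)) * Real.exp T := by
          gcongr
          exact hfl.2
      _ = Real.exp (2 * (δ * T) + T) := by rw [← Real.exp_add]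
      _ ≤ Real.exp (101 / 100 * T) := by
          apply Real.exp_le_exp.2
          nlinarith
      _ ≤ 3 * Real.exp (101 / 100 * T) := by
          have := Real.exp_pos (101 / 100 * T)
          linarith
  have hw4 : 4 * (κ + 1) + 4 ≤ w := by
    have h5 : ((4 * (κ + 1) + 4 : ℕ) : ℝ) ^ 2 ≤ (w : ℝ) ^ 2 := hTκ.trans hS.hw1
    have h6 : ((4 * (κ + 1) + 4 : ℕ) : ℝ) ≤ (w : ℝ) := (sq_le_sq₀ (by positivity) (by positivity)).1 h5
    exact_mod_cast h6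
  have hw8 : (w : ℝ) < (Y : ℝ) ^ (1 / 8 : ℝ) := lt_of_le_of_lt hS.hw2 hT8
  have hε₂8 : ε₂ < 1 / 8 := by linarith
  have hXlt : (Y : ℝ) ^ ε₂ < (Y : ℝ) ^ (1 / 8 : ℝ) := Real.rpow_lt_rpow_of_exponent_lt (by linarith) hε₂8
  -- the data for the composite values
  have hHc : ∀ p ∈ (Icc 1 Y).filter (fun p => p.Prime ∧ w < p ∧ (p : ℝ) ≤ (Y : ℝ) ^ ε₂),
      PW_H ((Y : ℝ) ^ ε₂) Q B H p ⊆ range p ∧ (PW_H ((Y : ℝ) ^ ε₂) Q B H p).card ≤ κ + 1 ∧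
      (¬ p ∣ Q → ∃ c ∈ PW_H ((Y : ℝ) ^ ε₂) Q B H p, p ∣ Q * c + B) := by
    intro p hp
    rw [mem_filter, mem_Icc] at hp
    have h5 := hS.hH p hp.2.1 hp.2.2.1
    exact ⟨PW_H_range h5.1, PW_H_card hp.2.1 hS.hco h5.2.1, fun hpq => PW_H_zero hp.2.1 hp.2.2.2 hpq⟩
  obtain ⟨hU, hrr, hcomp⟩ := hT0 T hTT0 w Q χ hS.hwM hS.hwQ hS.hQ hχ hχ2 _ B
    (PW_H ((Y : ℝ) ^ ε₂) Q B H) rfl hS.hB1 hS.hBQ hS.hco hχB hHc
  set P' := (Icc 1 Y).filter (fun p => p.Prime ∧ w < p ∧ (p : ℝ) ≤ (Y : ℝ) ^ ε₂) with hP'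
  have hL : 0 < LV χ := LV_pos hχ hχ2
  set H' := PW_H ((Y : ℝ) ^ ε₂) Q B H with hH'
  have hU0 : 0 < LV χ * VV χ P' H' := lt_of_lt_of_le (Real.rpow_pos_of_pos hYpos _) hU
  have hVV : 0 < VV χ P' H' := (mul_pos_iff_of_pos_left hL).1 hU0
  -- the weighted sieve
  have hPZ : (PZ Y (17 / 50)).filter (fun p => w < p) ⊆ PZ Y (17 / 50) := filter_subset _ _
  have hPprime : ∀ p ∈ (PZ Y (17 / 50)).filter (fun p => w < p), p.Prime ∧ w < p := by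
    intro p hp
    rw [mem_filter] at hp
    have h5 := hp.1
    unfold PZ at h5
    rw [mem_filter] at h5
    exact ⟨h5.2.1, hp.2⟩
  have hlow := hY0 Y hY0' Q χ B H' ((PZ Y (17 / 50)).filter (fun p => w < p)) hχ hχ2 hS.hB1 hS.hBQ hS.hco hχB
    hQY1 hPZ (fun p hp => by
      have := (hPprime p hp).2
      omega)
    (fun p hp => ⟨PW_H_range (hS.hH p (hPprime p hp).1 (hPprime p hp).2).1,
      PW_H_card (hPprime p hp).1 hS.hco (hS.hH p (hPprime p hp).1 (hPprime p hp).2).2.1⟩)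
    (by
      refine PW_Mer (κ := κ) hχ2 ((PZ Y (17 / 50)).filter (fun p => w < p)) (by omega) ?_ ?_ hMer
      · intro p hp
        unfold pr at hp
        rw [mem_filter, mem_Icc] at hp
        have h6 : ¬ (p : ℝ) < (Y : ℝ) ^ ε₁ := fun hlt => by
          have := (tt_lt Y p ε₁ hY2 hp.2.1.pos).2 hlt
          linarith [hp.2.2.1]
        rw [not_lt] at h6
        have h7 : (w : ℝ) < p := by
          have := hS.hw2
          linarith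
        have h7' : w < p := by exact_mod_cast h7
        have h8 : (Y : ℝ) ^ ε₂ < (Y : ℝ) ^ ε₁ := Real.rpow_lt_rpow_of_exponent_lt (by linarith) (by linarith)
        have h9 := hS.hH p hp.2.1 h7'
        refine ⟨hp.2.1, by linarith, ?_, h9.2.1, h9.2.2, h6⟩
        rw [mem_filter]
        unfold PZ
        rw [mem_filter, mem_Icc]
        exact ⟨⟨hp.1, hp.2.1, hp.2.2.2⟩, h7'⟩
      · exact PW_small hη (Real.rpow_pos_of_pos hYpos _) hη')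
  have hprod := PW_prod (κ := κ) hχ2 hY2 hε₂ hε₂8 hS.hco (fun p hp hwp => ⟨(hS.hH p hp hwp).1, (hS.hH p hp hwp).2.1⟩)
    (hratio Y hY1') hVV.le (c5 := c5)
  by_contra hG
  have hup := PW_sum (R := R) hχ2 hY hY2 hQ1 hQY hS.hBQ hw8 hXlt hS.hSq hrr hcomp hG
  have hchain := hlow.trans hup
  have hfinal := hchain
  have h5 : c₀ * c5 * ((Y : ℝ) * (LV χ * VV χ P' H')) ≤
      c₀ * ((Y : ℝ) * (LV χ * ∏ p ∈ ((PZ Y (17 / 50)).filter (fun p => w < p)).filter (fun p => tt Y p < 1 / 8), (1 - gg χ B H' p))) := by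
    have h6 : c₀ * c5 * ((Y : ℝ) * (LV χ * VV χ P' H')) = c₀ * ((Y : ℝ) * (LV χ * (c5 * VV χ P' H'))) := by ring
    rw [h6]
    gcongr
  have hsumD : ∑ p ∈ pr Y (1 / 8) (17 / 50), ((Y : ℝ) / (p : ℝ) ^ 2 + 3) ≤
      2 * (Y : ℝ) ^ (7 / 8 : ℝ) + 3 * (Y : ℝ) ^ (17 / 50 : ℝ) := by
    rw [sum_add_distrib, sum_const, nsmul_eq_mul]
    have h6 : ∀ p ∈ pr Y (1 / 8) (17 / 50), (Y : ℝ) ^ (1 / 8 : ℝ) ≤ p ∧ (p : ℝ) < (Y : ℝ) ^ (17 / 50 : ℝ) ∧ 1 ≤ p := by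
      intro p hp
      unfold pr at hp
      rw [mem_filter, mem_Icc] at hp
      refine ⟨?_, (tt_lt Y p _ hY2 hp.2.1.pos).1 hp.2.2.2, hp.1.1⟩
      by_contra hlt
      have := (tt_lt Y p _ hY2 hp.2.1.pos).2 (not_le.1 hlt)
      linarith [hp.2.2.1]
    refine add_le_add ?_ ?_
    · have h7 : ∑ p ∈ pr Y (1 / 8) (17 / 50), (Y : ℝ) / (p : ℝ) ^ 2 = Y * ∑ p ∈ pr Y (1 / 8) (17 / 50), 1 / (p : ℝ) ^ 2 := by
        rw [mul_sum]
        apply sum_congr rfl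
        intro p _
        ring
      rw [h7]
      calc (Y : ℝ) * ∑ p ∈ pr Y (1 / 8) (17 / 50), 1 / (p : ℝ) ^ 2 ≤ Y * (2 / (Y : ℝ) ^ (1 / 8 : ℝ)) := by
            apply mul_le_mul_of_nonneg_left _ hYpos.le
            exact PW_sum_inv_sq _ _ (Real.rpow_pos_of_pos hYpos _) fun p hp => (h6 p hp).1
        _ = 2 * ((Y : ℝ) ^ (1 : ℝ) / (Y : ℝ) ^ (1 / 8 : ℝ)) := by rw [Real.rpow_one]; ring
        _ = 2 * (Y : ℝ) ^ (7 / 8 : ℝ) := by
            rw [← Real.rpow_sub hYpos]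
            norm_num
    · rw [mul_comm]
      apply mul_le_mul_of_nonneg_left _ (by norm_num)
      have h7 : pr Y (1 / 8) (17 / 50) ⊆ Icc 1 ⌊(Y : ℝ) ^ (17 / 50 : ℝ)⌋₊ := by
        intro p hp
        rw [mem_Icc]
        exact ⟨(h6 p hp).2.2, Nat.le_floor (h6 p hp).2.1.le⟩
      have h8 := card_le_card h7
      rw [Nat.card_Icc, Nat.add_sub_cancel] at h8
      calc ((pr Y (1 / 8) (17 / 50)).card : ℝ) ≤ (⌊(Y : ℝ) ^ (17 / 50 : ℝ)⌋₊ : ℝ) := by exact_mod_cast h8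
        _ ≤ _ := Nat.floor_le (Real.rpow_nonneg hYpos.le _)
  have hexp : Real.exp (T / 2) ≤ 2 * (Y : ℝ) ^ (1 / 2 : ℝ) := by
    have h6 : Real.exp (T / 2) = (Real.exp T) ^ (1 / 2 : ℝ) := by
      rw [← Real.exp_mul]; congr 1; ring
    have h7 : Real.exp T ≤ 4 * Y := by linarith [hfl.1]
    calc Real.exp (T / 2) = (Real.exp T) ^ (1 / 2 : ℝ) := h6
      _ ≤ (4 * (Y : ℝ)) ^ (1 / 2 : ℝ) := Real.rpow_le_rpow (Real.exp_pos _).le h7 (by norm_num)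
      _ = 2 * (Y : ℝ) ^ (1 / 2 : ℝ) := by
          rw [Real.mul_rpow (by norm_num) hYpos.le, PW_four]
  refine PW_final (y := (Y : ℝ)) (U := LV χ * VV χ P' H') (c := c₀ * c5) (R1 := 2 ^ R) (a := Real.exp (T / 2))
    (e₂ := ε₂) (C := K / δ * ell (M ^ 32) χ) (by linarith) (by positivity) (by positivity) hε₂ hε₂200 hU hc4 hR64
    hexp ?_ hsumD (h5.trans hchain)
  calc K / δ * ell (M ^ 32) χ ≤ K / δ * (c₀ * c5 / (4 * K) * δ) := by gcongr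
    _ = c₀ * c5 / 4 := by field_simp

end Pool.Agent.H536.OC
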